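import Mathlib

/-!
# Fat points in projective space: the basic definitions

Definitions used for problem `MP_1dafdd_ag` (general fat points in `ℙ^r` over `ℂ`).
A point of `ℙ^r` is given by a vector of homogeneous coordinates `q : Fin (r+1) → ℂ`.
-/

namespace Pool.Agent.H18.Fat

open MvPolynomial

/-- The Taylor expansion of `F` at the point `q`, that is, the polynomial `F(q + x)`. -/
noncomputable def shift {n : ℕ} (q : Fin n → ℂ) (F : MvPolynomial (Fin n) ℂ) :
    MvPolynomial (Fin n) ℂ :=
  aeval (fun j => X j + C (q j)) F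

/-- `F` vanishes to order at least `m` at `q`: the polynomial `F(q + x)` has no term of
degree smaller than `m`. -/
def VanishesToOrder {n : ℕ} (F : MvPolynomial (Fin n) ℂ) (q : Fin n → ℂ) (m : ℕ) : Prop :=
  ∀ β : Fin n →₀ ℕ, β.degree < m → coeff β (shift q F) = 0

/-- The space `V_d(Γ)` of homogeneous forms of degree `d` in `r + 1` variables which vanish
to order at least `m i` at the point `p i`, for every `i`. -/
noncomputable def fatForms (r d : ℕ) {ι : Type*} (p : ι → Fin (r + 1) → ℂ) (m : ι → ℕ) :
    Submodule ℂ (MvPolynomial (Fin (r + 1)) ℂ) where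
  carrier := {F | F.IsHomogeneous d ∧ ∀ i, VanishesToOrder F (p i) (m i)}
  add_mem' := by
    intro F G hF hG
    refine ⟨hF.1.add hG.1, fun i β hβ => ?_⟩
    have h1 := hF.2 i β hβ
    have h2 := hG.2 i β hβ
    unfold shift at *
    rw [map_add, coeff_add, h1, h2, add_zero]
  zero_mem' := ⟨isHomogeneous_zero _ _ _, fun i β _ => by simp [shift]⟩
  smul_mem' := by
    intro c F hF
    refine ⟨by simpa using (homogeneousSubmodule (Fin (r + 1)) ℂ d).smul_mem c hF.1,
      fun i β hβ => ?_⟩
    have h1 := hF.2 i β hβ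
    unfold shift at *
    rw [map_smul, coeff_smul, h1, smul_zero]

/-- `Γ`, given by the points `p i` and the multiplicities `m i`, imposes maximal conditions in
degree `d`: the dimension of `V_d(Γ)` is `max {0, binom(d+r, r) - ∑ i, binom(m i + r - 1, r)}`. -/
def ImposesMaximalConditions (r d : ℕ) {k : ℕ} (p : Fin k → Fin (r + 1) → ℂ)
    (m : Fin k → ℕ) : Prop :=
  (Module.finrank ℂ (fatForms r d p m) : ℤ) =
    max 0 (((d + r).choose r : ℤ) - ∑ i, ((m i + r - 1).choose r : ℤ))

/-- The property `P` of `k`-tuples of points (of `ℙ^r`, given by coordinate vectors) holds for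
general points: it holds outside the zero locus of some nonzero polynomial in the
coordinates of the points. -/
def ForGeneralPoints (r k : ℕ) (P : (Fin k → Fin (r + 1) → ℂ) → Prop) : Prop :=
  ∃ G : MvPolynomial (Fin k × Fin (r + 1)) ℂ, G ≠ 0 ∧
    ∀ p : Fin k → Fin (r + 1) → ℂ, eval (fun x => p x.1 x.2) G ≠ 0 → P p

end Pool.Agent.H18.Fat
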